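import Pool.Agent.H.MP_6ba1da_al.Main

set_option autoImplicit false

namespace Pool.Agent.Results.MP_6ba1da_al.NotLinear
open Pool.Agent.H.MP_6ba1da_al

universe u

/-- The lower central series, index `i` being the term usually numbered `i + 1`. -/
def gam (G : Type) [Group G] (i : ℕ) : Subgroup G := (⊤ : Subgroup G).lowerCentralSeries i

instance (G : Type) [Group G] (i : ℕ) : (gam G i).Normal :=
  inferInstanceAs ((⊤ : Subgroup G).lowerCentralSeries i).Normal

/-- Consecutive terms of the lower central series have isomorphic quotients in `G` and `H`. -/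
def SameFactors (G H : Type) [Group G] [Group H] : Prop := ∀ i : ℕ, Nonempty
  ((gam G i ⧸ (gam G (i + 1)).subgroupOf (gam G i)) ≃*
    (gam H i ⧸ (gam H (i + 1)).subgroupOf (gam H i)))

theorem result : ∃ (G : Type) (_ : Group G), (∃ X : Type, SameFactors G (FreeGroup X)) ∧
    (⨅ i : ℕ, gam G i) = ⊥ ∧
    ∀ (R : Type u) [CommRing R] (n : ℕ) (ρ : G →* GL (Fin n) R), ¬ Function.Injective ρ := by
  have : (⨅ i, L G0 i).Normal := Subgroup.normal_iInf_normal fun i => inferInstance
  let π := QuotientGroup.mk' (⨅ i, L G0 i)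
  have h := fun k => iso_quot π (QuotientGroup.mk'_surjective _) k
    ((QuotientGroup.ker_mk' _).trans_le (iInf_le _ _))
  refine ⟨G0 ⧸ ⨅ i, L G0 i, inferInstance, ⟨Option Λ, fun i => ?_⟩, eq_bot_iff.2 fun x hx => ?_,
    fun R _ n ρ hρ => ?_⟩
  · obtain ⟨e⟩ := (h i).2
    obtain ⟨e'⟩ := iso0 i
    exact ⟨e.symm.trans e'⟩
  · obtain ⟨x, rfl⟩ := QuotientGroup.mk'_surjective _ x
    exact (QuotientGroup.eq_one_iff _).2 (Subgroup.mem_iInf.2 fun i =>
      Subgroup.lowerCentralSeries_antitone _ i.le_succ ((h i).1.le (Subgroup.mem_iInf.1 hx (i + 1))))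
  · obtain ⟨k, e⟩ := nonlin (ρ.comp π)
    exact not_mem k (Subgroup.mem_iInf.1 ((QuotientGroup.eq_one_iff _).1
      ((injective_iff_map_eq_one ρ).1 hρ _ e)) _)

end Pool.Agent.Results.MP_6ba1da_al.NotLinear
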